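import Mathlib
import Pool.Agent.Q281.BSG.Stm

/-!
# The critical point
-/

set_option autoImplicit false

open Filter Topology Set

namespace Pool.Agent.Q190.BSG

open Pool.Agent.Q281.BSG

lemma sum_split (k m n : ℕ) (hk : 0 < k) (F : ℕ → ℝ) :
    ∑ w ∈ Finset.range (k ^ (m + n)), F w =
      ∑ p ∈ Finset.range (k ^ m) ×ˢ Finset.range (k ^ n), F (p.1 + k ^ m * p.2) := by
  have hkm : 0 < k ^ m := pow_pos hk m
  refine (Finset.sum_bij' (fun p _ => p.1 + k ^ m * p.2) (fun w _ => (w % k ^ m, w / k ^ m))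
    ?_ ?_ ?_ ?_ ?_).symm
  · rintro ⟨u, v⟩ h
    simp only [Finset.mem_product, Finset.mem_range] at h ⊢
    rw [pow_add]
    calc u + k ^ m * v < k ^ m + k ^ m * v := by omega
      _ = k ^ m * (v + 1) := by ring
      _ ≤ k ^ m * k ^ n := Nat.mul_le_mul_left _ h.2
  · intro w h
    simp only [Finset.mem_product, Finset.mem_range] at h ⊢
    refine ⟨Nat.mod_lt _ hkm, ?_⟩
    rw [Nat.div_lt_iff_lt_mul hkm, mul_comm, ← pow_add]
    exact h
  · rintro ⟨u, v⟩ h
    simp only [Finset.mem_product, Finset.mem_range] at h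
    simp only [Prod.mk.injEq]
    constructor
    · rw [Nat.add_mul_mod_self_left, Nat.mod_eq_of_lt h.1]
    · rw [Nat.add_mul_div_left _ _ hkm, Nat.div_eq_of_lt h.1, zero_add]
  · intro w _
    exact Nat.mod_add_div w (k ^ m)
  · intro p _
    rfl

lemma NN_mul (k : ℕ) (L : ℕ → ℕ → ℕ) (m n : ℕ) (z : ℝ) :
    NN k L m z * NN k L n z =
      ∑ p ∈ Finset.range (k ^ m) ×ˢ Finset.range (k ^ n), z ^ (L m p.1 + L n p.2) := by
  unfold NN
  rw [Finset.sum_mul_sum, Finset.sum_product]
  simp_rw [pow_add]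

lemma NN_cont (k : ℕ) (L : ℕ → ℕ → ℕ) (m : ℕ) : Continuous (NN k L m) := by
  unfold NN
  fun_prop

theorem n : S_N := by
  intro k C M L hk hM hL0 hsub hsup hlow
  have hk0 : 0 < k := by omega
  have hk1 : (1 : ℝ) < k := by exact_mod_cast (by omega : 1 < k)
  -- the two inequalities
  have h1 : ∀ (m n : ℕ) (z : ℝ), 0 ≤ z → z ≤ 1 → NN k L m z * NN k L n z ≤ NN k L (m + n) z := by
    intro m n z hz hz1
    rw [NN_mul]
    unfold NN
    rw [sum_split k m n hk0]
    refine Finset.sum_le_sum (fun p hp => ?_)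
    simp only [Finset.mem_product, Finset.mem_range] at hp
    exact pow_le_pow_of_le_one hz hz1 (hsub m n p.1 p.2 hp.1 hp.2)
  have h2 : ∀ (m n : ℕ) (z : ℝ), 0 ≤ z → z ≤ 1 →
      z ^ C * NN k L (m + n) z ≤ NN k L m z * NN k L n z := by
    intro m n z hz hz1
    rw [NN_mul]
    unfold NN
    rw [sum_split k m n hk0, Finset.mul_sum]
    refine Finset.sum_le_sum (fun p hp => ?_)
    simp only [Finset.mem_product, Finset.mem_range] at hp
    rw [← pow_add]
    refine pow_le_pow_of_le_one hz hz1 ?_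
    have := hsup m n p.1 p.2 hp.1 hp.2
    omega
  have hN0 : ∀ z : ℝ, NN k L 0 z = 1 := by
    intro z
    unfold NN
    simp [hL0]
  set Z : Set ℝ := Icc 0 1 ∩ {z | ∀ m, NN k L m z ≤ 1} with hZ
  have hZc : IsCompact Z := by
    refine isCompact_Icc.inter_right ?_
    have : {z : ℝ | ∀ m, NN k L m z ≤ 1} = ⋂ m, {z | NN k L m z ≤ 1} := by
      ext z; simp
    rw [this]
    exact isClosed_iInter (fun m => isClosed_le (NN_cont k L m) continuous_const)
  have hmem : ((1 : ℝ) / k) ^ M ∈ Z := by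
    have hpos : (0 : ℝ) < 1 / k := by positivity
    have hle : (1 : ℝ) / k ≤ 1 := by rw [div_le_one (by positivity)]; exact hk1.le
    refine ⟨⟨by positivity, pow_le_one₀ hpos.le hle⟩, fun m => ?_⟩
    unfold NN
    calc ∑ u ∈ Finset.range (k ^ m), (((1 : ℝ) / k) ^ M) ^ L m u
        ≤ ∑ u ∈ Finset.range (k ^ m), ((1 : ℝ) / k) ^ m := by
          refine Finset.sum_le_sum (fun u hu => ?_)
          rw [← pow_mul]
          exact pow_le_pow_of_le_one hpos.le hle (hlow m u (Finset.mem_range.mp hu))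
      _ = 1 := by
          rw [Finset.sum_const, Finset.card_range, nsmul_eq_mul]
          push_cast
          rw [← mul_pow, mul_one_div_cancel (by positivity), one_pow]
  set z0 := sSup Z with hz0
  have hz0Z : z0 ∈ Z := hZc.sSup_mem ⟨_, hmem⟩
  have hz0pos : 0 < z0 := by
    have h3 : ((1 : ℝ) / k) ^ M ≤ z0 := le_csSup hZc.bddAbove hmem
    have : (0 : ℝ) < ((1 : ℝ) / k) ^ M := by positivity
    linarith
  have hz01 : z0 < 1 := by
    refine lt_of_le_of_ne hz0Z.1.2 ?_
    intro h
    have h4 := hz0Z.2 1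
    rw [h] at h4
    unfold NN at h4
    simp at h4
    have : (k : ℝ) ≤ 1 := by exact_mod_cast h4
    linarith
  refine ⟨z0, hz0pos, hz01, fun m => ⟨?_, hz0Z.2 m⟩⟩
  by_contra hcon
  push Not at hcon
  -- a point `z > z0` with `N_m(z) < z^C`
  have hev : ∀ᶠ z in 𝓝 z0, NN k L m z < z ^ C :=
    (NN_cont k L m).continuousAt.eventually_lt (continuous_pow C).continuousAt hcon
  have hev2 : ∀ᶠ z in 𝓝[>] z0, NN k L m z < z ^ C ∧ z < 1 ∧ z0 < z := by
    filter_upwards [eventually_nhdsWithin_of_eventually_nhds hev,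
      eventually_nhdsWithin_of_eventually_nhds (gt_mem_nhds hz01), self_mem_nhdsWithin] with z a b c
    exact ⟨a, b, c⟩
  obtain ⟨z, hz1, hz2, hz3⟩ := hev2.exists
  have hzpos : 0 < z := by linarith
  have hzC : 0 < z ^ C := by positivity
  have hzZ : z ∉ Z := fun h => absurd (le_csSup hZc.bddAbove h) (not_le.mpr hz3)
  obtain ⟨m0, hm0⟩ : ∃ m0, 1 < NN k L m0 z := by
    by_contra hc
    push Not at hc
    exact hzZ ⟨⟨hzpos.le, hz2.le⟩, hc⟩
  have hnn : ∀ n, 0 ≤ NN k L n z := fun n => by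
    unfold NN; positivity
  -- boundedness
  have hm1 : 0 < m := by
    rcases Nat.eq_zero_or_pos m with h | h
    · subst h
      rw [hN0] at hz1
      have : z ^ C ≤ 1 := pow_le_one₀ hzpos.le hz2.le
      linarith
    · exact h
  have hstep : ∀ n, NN k L (n + m) z ≤ NN k L n z := by
    intro n
    have h5 := h2 n m z hzpos.le hz2.le
    have h6 : NN k L n z * NN k L m z ≤ NN k L n z * z ^ C := by
      have := hnn n
      gcongr
    have h7 : z ^ C * NN k L (n + m) z ≤ z ^ C * NN k L n z := by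
      calc z ^ C * NN k L (n + m) z ≤ NN k L n z * z ^ C := h5.trans h6
        _ = z ^ C * NN k L n z := mul_comm _ _
    exact le_of_mul_le_mul_left h7 hzC
  have hbd : ∀ n, NN k L n z ≤ ∑ r ∈ Finset.range m, NN k L r z := by
    intro n
    have h8 : ∀ j r, NN k L (r + j * m) z ≤ NN k L r z := by
      intro j r
      induction j with
      | zero => simp
      | succ j ih =>
        have : r + (j + 1) * m = (r + j * m) + m := by ring
        rw [this]
        exact (hstep _).trans ih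
    have h9 := h8 (n / m) (n % m)
    have h10 : n % m + n / m * m = n := by rw [mul_comm]; exact Nat.mod_add_div n m
    rw [h10] at h9
    refine h9.trans ?_
    exact Finset.single_le_sum (f := fun r => NN k L r z) (fun r _ => hnn r)
      (Finset.mem_range.mpr (Nat.mod_lt n hm1))
  have hgrow : ∀ j, (NN k L m0 z) ^ j ≤ NN k L (j * m0) z := by
    intro j
    induction j with
    | zero => rw [pow_zero, zero_mul, hN0]
    | succ j ih =>
      rw [pow_succ, add_mul, one_mul]
      refine le_trans ?_ (h1 (j * m0) m0 z hzpos.le hz2.le)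
      have := hnn m0
      gcongr
  obtain ⟨j, hj⟩ := pow_unbounded_of_one_lt (∑ r ∈ Finset.range m, NN k L r z) hm0
  have := (hgrow j).trans (hbd (j * m0))
  linarith

end Pool.Agent.Q190.BSG
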