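import Mathlib
import Pool.Agent.Q281.BSG.Stm

/-!
# A power series with logarithmic growth at its first singularity is transcendental
-/

set_option autoImplicit false

open Filter Topology Set

namespace Pool.Agent.Q190.BSG

open Pool.Agent.Q281.BSG

/-- absolutely convergent evaluation -/
def Gd (z : ℝ) (g : PowerSeries ℚ) (v : ℝ) : Prop :=
  Summable (fun n => ‖((PowerSeries.coeff n g : ℚ) : ℝ) * z ^ n‖) ∧
    ∑' n, ((PowerSeries.coeff n g : ℚ) : ℝ) * z ^ n = v

lemma Gd.mul {z : ℝ} {g h : PowerSeries ℚ} {v w : ℝ} (hg : Gd z g v) (hh : Gd z h w) :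
    Gd z (g * h) (v * w) := by
  have e : ∀ n, ((PowerSeries.coeff n (g * h) : ℚ) : ℝ) * z ^ n =
      ∑ kl ∈ Finset.HasAntidiagonal.antidiagonal n, (((PowerSeries.coeff kl.1 g : ℚ) : ℝ) * z ^ kl.1) *
        (((PowerSeries.coeff kl.2 h : ℚ) : ℝ) * z ^ kl.2) := by
    intro n
    rw [PowerSeries.coeff_mul]
    push_cast
    rw [Finset.sum_mul]
    refine Finset.sum_congr rfl (fun kl hkl => ?_)
    rw [← Finset.HasAntidiagonal.mem_antidiagonal.mp hkl, pow_add]
    ring
  have hs := summable_norm_sum_mul_antidiagonal_of_summable_norm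
    (f := fun n => ((PowerSeries.coeff n g : ℚ) : ℝ) * z ^ n)
    (g := fun n => ((PowerSeries.coeff n h : ℚ) : ℝ) * z ^ n) hg.1 hh.1
  have ht := tsum_mul_tsum_eq_tsum_sum_antidiagonal_of_summable_norm
    (f := fun n => ((PowerSeries.coeff n g : ℚ) : ℝ) * z ^ n)
    (g := fun n => ((PowerSeries.coeff n h : ℚ) : ℝ) * z ^ n) hg.1 hh.1
  have e' : (fun n => ((PowerSeries.coeff n (g * h) : ℚ) : ℝ) * z ^ n) =
      fun n => ∑ kl ∈ Finset.HasAntidiagonal.antidiagonal n,
        (((PowerSeries.coeff kl.1 g : ℚ) : ℝ) * z ^ kl.1) *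
        (((PowerSeries.coeff kl.2 h : ℚ) : ℝ) * z ^ kl.2) := funext e
  constructor
  · refine hs.congr (fun n => ?_)
    rw [e n]
  · rw [hg.2, hh.2] at ht
    rw [ht]
    exact tsum_congr e

lemma Gd.add {z : ℝ} {g h : PowerSeries ℚ} {v w : ℝ} (hg : Gd z g v) (hh : Gd z h w) :
    Gd z (g + h) (v + w) := by
  have e : ∀ n, ((PowerSeries.coeff n (g + h) : ℚ) : ℝ) * z ^ n =
      ((PowerSeries.coeff n g : ℚ) : ℝ) * z ^ n + ((PowerSeries.coeff n h : ℚ) : ℝ) * z ^ n := by
    intro n
    rw [map_add]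
    push_cast
    ring
  constructor
  · simp_rw [e]
    refine Summable.of_nonneg_of_le (fun n => norm_nonneg _) (fun n => norm_add_le _ _)
      (hg.1.add hh.1)
  · simp_rw [e]
    rw [(hg.1.of_norm).tsum_add hh.1.of_norm, hg.2, hh.2]

lemma Gd.monomial (z : ℝ) (m : ℕ) (a : ℚ) :
    Gd z ((Polynomial.monomial m a : Polynomial ℚ) : PowerSeries ℚ) ((a : ℝ) * z ^ m) := by
  have e : ∀ n, ((PowerSeries.coeff n ((Polynomial.monomial m a : Polynomial ℚ) : PowerSeries ℚ)
      : ℚ) : ℝ) * z ^ n = if n = m then (a : ℝ) * z ^ m else 0 := by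
    intro n
    rw [Polynomial.coeff_coe, Polynomial.coeff_monomial]
    by_cases h : m = n
    · subst h; simp
    · rw [if_neg h, if_neg (fun h' => h h'.symm)]; simp
  constructor
  · simp_rw [e]
    refine summable_of_ne_finset_zero (s := {m}) (fun n hn => ?_)
    rw [if_neg (by simpa using hn), norm_zero]
  · simp_rw [e]
    rw [tsum_eq_single m (fun n hn => by rw [if_neg hn]), if_pos rfl]

lemma Gd.poly (z : ℝ) (p : Polynomial ℚ) :
    Gd z (p : PowerSeries ℚ) ((p.map (algebraMap ℚ ℝ)).eval z) := by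
  induction p using Polynomial.induction_on' with
  | add p q hp hq =>
    rw [Polynomial.coe_add, Polynomial.map_add, Polynomial.eval_add]
    exact hp.add hq
  | monomial m a =>
    have := Gd.monomial z m a
    simpa using this

lemma Gd.pow {z : ℝ} {g : PowerSeries ℚ} {v : ℝ} (hg : Gd z g v) (n : ℕ) :
    Gd z (g ^ n) (v ^ n) := by
  induction n with
  | zero =>
    have := Gd.poly z 1
    simpa using this
  | succ n ih => rw [pow_succ, pow_succ]; exact ih.mul hg

lemma Gd.sum {z : ℝ} (g : ℕ → PowerSeries ℚ) (v : ℕ → ℝ) (h : ∀ j, Gd z (g j) (v j)) (D : ℕ) :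
    Gd z (∑ j ∈ Finset.range D, g j) (∑ j ∈ Finset.range D, v j) := by
  induction D with
  | zero =>
    have := Gd.poly z 0
    simpa using this
  | succ n ih => rw [Finset.sum_range_succ, Finset.sum_range_succ]; exact ih.add (h n)

lemma reduce (F : ℝ → ℝ) (z0 : ℝ) (D : ℕ) (n : ℕ) : ∀ r : ℕ → Polynomial ℝ,
    (∀ z ∈ Ioo 0 z0, ∑ j ∈ Finset.range (D + 1), (r j).eval z * F z ^ j = 0) →
    (∃ j0, j0 ≤ D ∧ r j0 ≠ 0 ∧ (r j0).natDegree = n) →
    ∃ r' : ℕ → Polynomial ℝ,
      (∀ z ∈ Ioo 0 z0, ∑ j ∈ Finset.range (D + 1), (r' j).eval z * F z ^ j = 0) ∧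
      ∃ j, j ≤ D ∧ (r' j).eval z0 ≠ 0 := by
  induction n with
  | zero =>
    rintro r h ⟨j0, hj, h0, hn⟩
    refine ⟨r, h, j0, hj, ?_⟩
    rw [Polynomial.eq_C_of_natDegree_eq_zero hn, Polynomial.eval_C]
    intro hc
    apply h0
    rw [Polynomial.eq_C_of_natDegree_eq_zero hn, hc, Polynomial.C_0]
  | succ n ih =>
    rintro r h ⟨j0, hj, h0, hn⟩
    by_cases hex : ∃ j, j ≤ D ∧ (r j).eval z0 ≠ 0
    · exact ⟨r, h, hex⟩
    · push Not at hex
      have hdiv : ∀ j, j ≤ D → (Polynomial.X - Polynomial.C z0) *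
          (r j /ₘ (Polynomial.X - Polynomial.C z0)) = r j := fun j hj =>
        Polynomial.mul_divByMonic_eq_iff_isRoot.mpr (hex j hj)
      refine ih (fun j => r j /ₘ (Polynomial.X - Polynomial.C z0)) ?_ ⟨j0, hj, ?_, ?_⟩
      · intro z hz
        have h1 := h z hz
        have h2 : ∑ j ∈ Finset.range (D + 1), (r j).eval z * F z ^ j = (z - z0) *
            ∑ j ∈ Finset.range (D + 1),
              (r j /ₘ (Polynomial.X - Polynomial.C z0)).eval z * F z ^ j := by
          rw [Finset.mul_sum]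
          refine Finset.sum_congr rfl (fun j hj => ?_)
          have hj' : j ≤ D := by have := Finset.mem_range.mp hj; omega
          have h3 := congrArg (Polynomial.eval z) (hdiv j hj')
          rw [Polynomial.eval_mul, Polynomial.eval_sub, Polynomial.eval_X, Polynomial.eval_C] at h3
          rw [← h3]
          ring
        rw [h2] at h1
        rcases mul_eq_zero.mp h1 with h4 | h4
        · exact absurd h4 (by have := hz.2; linarith [sub_neg.mpr this])
        · exact h4
      · intro hc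
        have := hdiv j0 hj
        rw [hc, mul_zero] at this
        exact h0 this.symm
      · rw [Polynomial.natDegree_divByMonic _ (Polynomial.monic_X_sub_C z0), hn,
          Polynomial.natDegree_X_sub_C]
        rfl

theorem t : S_T := by
  intro f z0 hz0 hf hsum hinf hJ
  set F : ℝ → ℝ := fun z => ∑' n, ((PowerSeries.coeff n f : ℚ) : ℝ) * z ^ n with hF
  intro halg
  obtain ⟨P, hP0, hP⟩ := halg
  -- evaluation
  have hgd : ∀ z ∈ Ioo 0 z0, Gd z f (F z) := by
    intro z hz
    refine ⟨?_, rfl⟩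
    have := hsum z hz.1.le hz.2
    refine this.congr (fun n => ?_)
    rw [Real.norm_eq_abs, abs_of_nonneg]
    exact mul_nonneg (by exact_mod_cast hf n) (pow_nonneg hz.1.le n)
  set r : ℕ → Polynomial ℝ := fun j => (P.coeff j).map (algebraMap ℚ ℝ) with hr
  set D := P.natDegree with hD
  have hrel : ∀ z ∈ Ioo 0 z0, ∑ j ∈ Finset.range (D + 1), (r j).eval z * F z ^ j = 0 := by
    intro z hz
    have h1 := Gd.sum (z := z) (fun j => ((P.coeff j : Polynomial ℚ) : PowerSeries ℚ) * f ^ j)
      (fun j => (r j).eval z * F z ^ j)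
      (fun j => (Gd.poly z (P.coeff j)).mul ((hgd z hz).pow j)) (D + 1)
    have h2 : ∑ j ∈ Finset.range (D + 1), ((P.coeff j : Polynomial ℚ) : PowerSeries ℚ) * f ^ j
        = 0 := by
      rw [Polynomial.aeval_eq_sum_range] at hP
      rw [← hP]
      refine Finset.sum_congr rfl (fun j _ => ?_)
      rw [Algebra.smul_def, PowerSeries.algebraMap_apply']
      congr 1
    rw [h2] at h1
    have h3 := h1.2
    simpa using h3.symm
  obtain ⟨r', hr'1, hr'2⟩ := reduce F z0 D _ r hrel ⟨D, le_rfl, by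
    simp only [hr]
    intro hc
    apply hP0
    rw [Polynomial.map_eq_zero] at hc
    exact Polynomial.leadingCoeff_eq_zero.mp hc, rfl⟩
  classical
  set J := Nat.findGreatest (fun j => (r' j).eval z0 ≠ 0) D with hJdef
  obtain ⟨j1, hj1, hj1'⟩ := hr'2
  have hJ1 : (r' J).eval z0 ≠ 0 :=
    Nat.findGreatest_spec (P := fun j => (r' j).eval z0 ≠ 0) hj1 hj1'
  have hJ2 : J ≤ D := Nat.findGreatest_le D
  have hJ3 : ∀ j, J < j → j ≤ D → (r' j).eval z0 = 0 := fun j h1 h2 =>
    not_not.mp (Nat.findGreatest_is_greatest h1 h2)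
  have hpos : ∀ᶠ z in 𝓝[<] z0, 0 < F z := hinf.eventually_gt_atTop 0
  have hcont : ∀ p : Polynomial ℝ, Tendsto (fun z => p.eval z) (𝓝[<] z0) (𝓝 (p.eval z0)) :=
    fun p => (p.continuous.tendsto z0).mono_left nhdsWithin_le_nhds
  have hterm : ∀ j ∈ Finset.range (D + 1), Tendsto (fun z => (r' j).eval z * F z ^ j / F z ^ J)
      (𝓝[<] z0) (𝓝 (if j = J then (r' J).eval z0 else 0)) := by
    intro j hj
    have hjD : j ≤ D := by have := Finset.mem_range.mp hj; omega
    rcases lt_trichotomy j J with h | h | h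
    · rw [if_neg h.ne]
      have h1 : Tendsto (fun z => (r' j).eval z * (F z ^ (J - j))⁻¹) (𝓝[<] z0)
          (𝓝 ((r' j).eval z0 * 0)) := by
        refine (hcont _).mul ?_
        refine tendsto_inv_atTop_zero.comp ?_
        exact (tendsto_pow_atTop (by omega)).comp hinf
      rw [mul_zero] at h1
      refine h1.congr' ?_
      filter_upwards [hpos] with z hz
      have : F z ^ J = F z ^ (J - j) * F z ^ j := by
        rw [← pow_add]; congr 1; omega
      rw [this]
      field_simp
    · subst h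
      rw [if_pos rfl]
      refine (hcont _).congr' ?_
      filter_upwards [hpos] with z hz
      field_simp
    · rw [if_neg h.ne']
      have hdiv := Polynomial.mul_divByMonic_eq_iff_isRoot.mpr (hJ3 j h hjD)
      set s := r' j /ₘ (Polynomial.X - Polynomial.C z0) with hs
      have h1 : Tendsto (fun z => -(s.eval z) * ((z0 - z) * F z ^ (j - J))) (𝓝[<] z0)
          (𝓝 (-(s.eval z0) * 0)) := ((hcont s).neg).mul (hJ (j - J))
      rw [mul_zero] at h1
      refine h1.congr' ?_
      filter_upwards [hpos] with z hz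
      have h2 : F z ^ j = F z ^ (j - J) * F z ^ J := by
        rw [← pow_add]; congr 1; omega
      have h3 := congrArg (Polynomial.eval z) hdiv
      rw [Polynomial.eval_mul, Polynomial.eval_sub, Polynomial.eval_X, Polynomial.eval_C] at h3
      rw [h2, ← h3]
      field_simp
      ring
  have hlim := tendsto_finsetSum (Finset.range (D + 1)) hterm
  rw [Finset.sum_ite_eq' (Finset.range (D + 1)) J, if_pos (Finset.mem_range.mpr (by omega))] at hlim
  have hzero : (fun z => ∑ j ∈ Finset.range (D + 1), (r' j).eval z * F z ^ j / F z ^ J)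
      =ᶠ[𝓝[<] z0] fun _ => (0 : ℝ) := by
    have h1 : ∀ᶠ z in 𝓝[<] z0, z ∈ Ioo 0 z0 := Ioo_mem_nhdsLT hz0
    filter_upwards [h1] with z hz
    rw [← Finset.sum_div, hr'1 z hz, zero_div]
  have h5 := hlim.congr' hzero
  exact hJ1 (tendsto_nhds_unique h5 tendsto_const_nhds)

end Pool.Agent.Q190.BSG
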